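import Mathlib
import Pool.Agent.W475.BH.Stm

set_option autoImplicit false

/-!
Project BH (helper475), MV: mean value with rational frequencies (helper701).
-/

namespace Pool.Agent.W701.BH

open Complex MeasureTheory Filter Topology

/-- the Gaussian weight -/
noncomputable def wt (T t : ℝ) : ℝ := Real.exp (-(Real.pi / T ^ 2 * (t - 3 / 2 * T) ^ 2))

theorem wt_pos (T t : ℝ) : 0 < wt T t := Real.exp_pos _

theorem wt_lower {T t : ℝ} (hT : 0 < T) (h1 : T ≤ t) (h2 : t ≤ 2 * T) :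
    1 ≤ Real.exp (Real.pi / 4) * wt T t := by
  unfold wt
  rw [← Real.exp_add]
  apply Real.one_le_exp
  have h3 : (t - 3 / 2 * T) ^ 2 ≤ T ^ 2 / 4 := by nlinarith
  have h4 : Real.pi / T ^ 2 * (t - 3 / 2 * T) ^ 2 ≤ Real.pi / T ^ 2 * (T ^ 2 / 4) := by
    have := Real.pi_pos
    gcongr
  have h5 : Real.pi / T ^ 2 * (T ^ 2 / 4) = Real.pi / 4 := by field_simp
  linarith

theorem wt_cont (T : ℝ) : Continuous (wt T) := by unfold wt; fun_prop

theorem wt_int {T : ℝ} (hT : 0 < T) : Integrable (wt T) := by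
  have hb : 0 < Real.pi / T ^ 2 := by have := Real.pi_pos; positivity
  have h := (integrable_exp_neg_mul_sq hb).comp_sub_right (3 / 2 * T)
  unfold wt
  refine h.congr (Eventually.of_forall fun t => ?_)
  simp only
  congr 1
  ring

theorem four {T : ℝ} (hT : 0 < T) (s : ℝ) :
    ‖∫ t : ℝ, (wt T t : ℂ) * cexp (-(I * t * s))‖ = T * Real.exp (-(T ^ 2 * s ^ 2 / (4 * Real.pi))) := by
  have hb0 : 0 < Real.pi / T ^ 2 := by have := Real.pi_pos; positivity
  set b : ℂ := ((Real.pi / T ^ 2 : ℝ) : ℂ) with hb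
  have hbre : 0 < b.re := by rw [hb, ofReal_re]; exact hb0
  set F : ℝ → ℂ := fun x => cexp (-(I * ((3 / 2 * T : ℝ) : ℂ) * s)) *
    (cexp (I * ((-s : ℝ) : ℂ) * x) * cexp (-b * (x : ℂ) ^ 2)) with hF
  have e1 : (fun t : ℝ => (wt T t : ℂ) * cexp (-(I * t * s))) = fun t : ℝ => F (t - 3 / 2 * T) := by
    funext t
    rw [hF]
    simp only
    unfold wt
    rw [ofReal_exp, ← Complex.exp_add, ← Complex.exp_add, ← Complex.exp_add]
    congr 1
    rw [hb]
    push_cast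
    ring
  rw [e1, integral_sub_right_eq_self F (3 / 2 * T)]
  rw [hF, integral_const_mul, fourierIntegral_gaussian hbre, norm_mul, norm_mul]
  have n1 : ‖cexp (-(I * ((3 / 2 * T : ℝ) : ℂ) * s))‖ = 1 := by
    have : -(I * ((3 / 2 * T : ℝ) : ℂ) * s) = ((-(3 / 2 * T * s) : ℝ) : ℂ) * I := by push_cast; ring
    rw [this, Complex.norm_exp_ofReal_mul_I]
  have n2 : ‖((Real.pi : ℂ) / b) ^ (1 / 2 : ℂ)‖ = T := by
    have e : (Real.pi : ℂ) / b = ((T ^ 2 : ℝ) : ℂ) := by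
      rw [hb]
      rw [← ofReal_div]
      congr 1
      have := Real.pi_pos
      field_simp
    rw [e, Complex.norm_cpow_eq_rpow_re_of_pos (by positivity)]
    have : (1 / 2 : ℂ).re = 1 / 2 := by norm_num
    rw [this, ← Real.sqrt_eq_rpow, Real.sqrt_sq hT.le]
  have n3 : ‖cexp (-((-s : ℝ) : ℂ) ^ 2 / (4 * b))‖ = Real.exp (-(T ^ 2 * s ^ 2 / (4 * Real.pi))) := by
    have e : -((-s : ℝ) : ℂ) ^ 2 / (4 * b) = ((-(T ^ 2 * s ^ 2 / (4 * Real.pi)) : ℝ) : ℂ) := by
      rw [hb]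
      have hpi : (Real.pi : ℂ) ≠ 0 := by exact_mod_cast Real.pi_pos.ne'
      have hTc : (T : ℂ) ≠ 0 := by exact_mod_cast hT.ne'
      push_cast
      field_simp
    rw [e, Complex.norm_exp_ofReal]
  rw [n1, n2, n3, one_mul]

theorem log_sep {A B : ℕ} {M : ℝ} (hA : 1 ≤ A) (hB : 1 ≤ B) (hAM : (A : ℝ) ≤ M) (hBM : (B : ℝ) ≤ M)
    (hne : A ≠ B) : 1 / M ≤ |Real.log ((A : ℝ) / B)| := by
  have key : ∀ A B : ℕ, 1 ≤ A → 1 ≤ B → (B : ℝ) ≤ M → A < B → 1 / M ≤ Real.log ((B : ℝ) / A) := by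
    intro A B hA hB hBM hlt
    have hA0 : (0 : ℝ) < A := by exact_mod_cast hA
    have hB0 : (0 : ℝ) < B := by exact_mod_cast hB
    have hM : 0 < M := lt_of_lt_of_le hB0 hBM
    have h1 := Real.one_sub_inv_le_log_of_pos (show (0 : ℝ) < B / A by positivity)
    have h2 : (A : ℝ) + 1 ≤ B := by exact_mod_cast hlt
    refine le_trans ?_ h1
    rw [inv_div]
    have h3 : 1 - (A : ℝ) / B = (B - A) / B := by field_simp
    rw [h3, div_le_div_iff₀ hM hB0]
    nlinarith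
  have hA0 : (0 : ℝ) < A := by exact_mod_cast hA
  have hB0 : (0 : ℝ) < B := by exact_mod_cast hB
  rcases lt_or_gt_of_ne hne with h | h
  · have h1 := key A B hA hB hBM h
    have e : Real.log ((A : ℝ) / B) = -Real.log ((B : ℝ) / A) := by
      rw [← Real.log_inv, inv_div]
    rw [e, abs_neg]
    exact h1.trans (le_abs_self _)
  · exact (key B A hB hA hAM h).trans (le_abs_self _)

theorem mv : Pool.Agent.W475.BH.S_MV := by
  refine ⟨Real.exp (Real.pi / 4), Real.exp_pos _, ?_⟩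
  intro ι s x a b N T hT hab
  have hT0 : 0 < T := lt_of_lt_of_le one_pos hT
  obtain ⟨l, hl⟩ : ∃ l : ι → ℝ, l = fun j => Real.log ((a j : ℝ) / b j) := ⟨_, rfl⟩
  set S : ℝ → ℂ := fun t => ∑ j ∈ s, x j * cexp (-(I * t * (l j : ℂ))) with hS
  have hSeq : ∀ t : ℝ, (∑ j ∈ s, x j * cexp (-(I * t * (Real.log ((a j : ℝ) / b j) : ℂ)))) = S t := by
    intro t; rw [hS, hl]
  simp_rw [hSeq]
  have hScont : Continuous S := by
    rw [hS]
    refine continuous_finsetSum _ fun j _ => ?_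
    fun_prop
  -- bound of `S`
  have hSb : ∀ t, ‖S t‖ ≤ ∑ j ∈ s, ‖x j‖ := by
    intro t
    rw [hS]
    refine (norm_sum_le _ _).trans (Finset.sum_le_sum fun j _ => ?_)
    rw [norm_mul]
    have : -(I * (t : ℂ) * (l j : ℂ)) = ((-(t * l j) : ℝ) : ℂ) * I := by push_cast; ring
    rw [this, Complex.norm_exp_ofReal_mul_I, mul_one]
  have hint : Integrable (fun t => wt T t * ‖S t‖ ^ 2) := by
    have h1 : Integrable (fun t => wt T t * (∑ j ∈ s, ‖x j‖) ^ 2) := (wt_int hT0).mul_const _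
    refine h1.mono' ((wt_cont T).mul (hScont.norm.pow 2)).aestronglyMeasurable (Eventually.of_forall fun t => ?_)
    rw [norm_mul, Real.norm_of_nonneg (wt_pos T t).le, Real.norm_of_nonneg (by positivity)]
    have := hSb t
    have := (wt_pos T t).le
    gcongr
  -- first step
  have st1 : ∫ t in T..(2 * T), ‖S t‖ ^ 2 ≤ Real.exp (Real.pi / 4) * ∫ t, wt T t * ‖S t‖ ^ 2 := by
    rw [intervalIntegral.integral_of_le (by linarith), ← integral_const_mul]
    have hint' : Integrable (fun t => Real.exp (Real.pi / 4) * (wt T t * ‖S t‖ ^ 2)) := hint.const_mul _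
    refine le_trans ?_ (setIntegral_le_integral (s := Set.Ioc T (2 * T)) hint'
      (Eventually.of_forall fun t => by have := wt_pos T t; positivity))
    refine setIntegral_mono_on ?_ hint'.integrableOn measurableSet_Ioc fun t ht => ?_
    · exact ((hScont.norm.pow 2).intervalIntegrable T (2 * T)).1
    · have h1 := wt_lower hT0 ht.1.le ht.2
      calc ‖S t‖ ^ 2 = 1 * ‖S t‖ ^ 2 := (one_mul _).symm
        _ ≤ (Real.exp (Real.pi / 4) * wt T t) * ‖S t‖ ^ 2 := by gcongr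
        _ = _ := by ring
  -- expansion
  have hterm : ∀ j k, Integrable (fun t : ℝ => (x j * (starRingEnd ℂ) (x k)) *
      ((wt T t : ℂ) * cexp (-(I * t * ((l j - l k : ℝ) : ℂ))))) := by
    intro j k
    refine Integrable.const_mul ?_ _
    have h1 : Integrable (fun t : ℝ => (wt T t : ℂ)) := (wt_int hT0).ofReal
    refine h1.norm.mono' ?_ (Eventually.of_forall fun t => ?_)
    · apply Continuous.aestronglyMeasurable
      have := wt_cont T
      fun_prop
    · rw [norm_mul]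
      have : -(I * (t : ℂ) * ((l j - l k : ℝ) : ℂ)) = ((-(t * (l j - l k)) : ℝ) : ℂ) * I := by push_cast; ring
      rw [this, Complex.norm_exp_ofReal_mul_I, mul_one]
  have hexp : ∀ t : ℝ, ((wt T t * ‖S t‖ ^ 2 : ℝ) : ℂ) = ∑ j ∈ s, ∑ k ∈ s, (x j * (starRingEnd ℂ) (x k)) *
      ((wt T t : ℂ) * cexp (-(I * t * ((l j - l k : ℝ) : ℂ)))) := by
    intro t
    have e1 : ((‖S t‖ ^ 2 : ℝ) : ℂ) = S t * (starRingEnd ℂ) (S t) := by
      rw [Complex.mul_conj, Complex.normSq_eq_norm_sq]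
    rw [ofReal_mul, e1]
    conv_lhs => rw [hS]
    simp only
    rw [map_sum, Finset.sum_mul_sum, Finset.mul_sum]
    refine Finset.sum_congr rfl fun j _ => ?_
    rw [Finset.mul_sum]
    refine Finset.sum_congr rfl fun k _ => ?_
    rw [map_mul, ← Complex.exp_conj]
    have e2 : (starRingEnd ℂ) (-(I * (t : ℂ) * (l k : ℂ))) = I * t * l k := by
      simp [Complex.conj_ofReal]
    rw [e2]
    have e3 : cexp (-(I * t * ((l j - l k : ℝ) : ℂ))) = cexp (-(I * t * (l j : ℂ))) * cexp (I * t * l k) := by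
      rw [← Complex.exp_add]
      congr 1
      push_cast; ring
    rw [e3]
    ring
  have st2 : ∫ t, wt T t * ‖S t‖ ^ 2 ≤ ∑ j ∈ s, ∑ k ∈ s, ‖x j‖ * ‖x k‖ *
      (T * Real.exp (-(T ^ 2 * (l j - l k) ^ 2 / (4 * Real.pi)))) := by
    have e1 : ((∫ t, wt T t * ‖S t‖ ^ 2 : ℝ) : ℂ) = ∑ j ∈ s, ∑ k ∈ s, (x j * (starRingEnd ℂ) (x k)) *
        ∫ t : ℝ, ((wt T t : ℂ) * cexp (-(I * t * ((l j - l k : ℝ) : ℂ)))) := by
      have e0 : ((∫ t, wt T t * ‖S t‖ ^ 2 : ℝ) : ℂ) = ∫ t, ((wt T t * ‖S t‖ ^ 2 : ℝ) : ℂ) :=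
        integral_ofReal.symm
      rw [e0]
      simp_rw [hexp]
      rw [integral_finset_sum _ fun j _ => integrable_finset_sum _ fun k _ => hterm j k]
      refine Finset.sum_congr rfl fun j _ => ?_
      rw [integral_finset_sum _ fun k _ => hterm j k]
      refine Finset.sum_congr rfl fun k _ => ?_
      rw [integral_const_mul]
    have e2 : ∫ t, wt T t * ‖S t‖ ^ 2 ≤ ‖((∫ t, wt T t * ‖S t‖ ^ 2 : ℝ) : ℂ)‖ := by
      rw [Complex.norm_real]; exact le_abs_self _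
    refine e2.trans ?_
    rw [e1]
    refine (norm_sum_le _ _).trans (Finset.sum_le_sum fun j _ => ?_)
    refine (norm_sum_le _ _).trans (Finset.sum_le_sum fun k _ => ?_)
    rw [norm_mul, norm_mul, four hT0, RCLike.norm_conj]
  have st3 : ∀ j ∈ s, ∀ k ∈ s, ‖x j‖ * ‖x k‖ * (T * Real.exp (-(T ^ 2 * (l j - l k) ^ 2 / (4 * Real.pi))))
      ≤ T * ((if a j * b k = a k * b j then ‖x j‖ * ‖x k‖ else 0) +
        ‖x j‖ * ‖x k‖ * Real.exp (-(T / (4 * N ^ 2)) ^ 2)) := by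
    intro j hj k hk
    obtain ⟨haj, hbj, haN, hbN⟩ := hab j hj
    obtain ⟨hak, hbk, hakN, hbkN⟩ := hab k hk
    have hnn : 0 ≤ ‖x j‖ * ‖x k‖ := by positivity
    have hT1 : 0 ≤ T := hT0.le
    by_cases heq : a j * b k = a k * b j
    · rw [if_pos heq]
      have h1 : Real.exp (-(T ^ 2 * (l j - l k) ^ 2 / (4 * Real.pi))) ≤ 1 := by
        rw [Real.exp_le_one_iff]
        have := Real.pi_pos
        have : 0 ≤ T ^ 2 * (l j - l k) ^ 2 / (4 * Real.pi) := by positivity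
        linarith
      have h2 : 0 ≤ ‖x j‖ * ‖x k‖ * Real.exp (-(T / (4 * N ^ 2)) ^ 2) := by positivity
      calc ‖x j‖ * ‖x k‖ * (T * Real.exp (-(T ^ 2 * (l j - l k) ^ 2 / (4 * Real.pi))))
          ≤ ‖x j‖ * ‖x k‖ * (T * 1) := by gcongr
        _ = T * (‖x j‖ * ‖x k‖) := by ring
        _ ≤ _ := by
            apply mul_le_mul_of_nonneg_left _ hT1
            linarith
    · rw [if_neg heq, zero_add]
      have hN0 : 0 < N := lt_of_lt_of_le (by exact_mod_cast haj) haN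
      have haj0 : (0 : ℝ) < a j := by exact_mod_cast haj
      have hbj0 : (0 : ℝ) < b j := by exact_mod_cast hbj
      have hak0 : (0 : ℝ) < a k := by exact_mod_cast hak
      have hbk0 : (0 : ℝ) < b k := by exact_mod_cast hbk
      have hs1 : 1 / N ^ 2 ≤ |l j - l k| := by
        have h1 : ((a j * b k : ℕ) : ℝ) ≤ N ^ 2 := by
          push_cast; rw [sq]; gcongr
        have h2 : ((a k * b j : ℕ) : ℝ) ≤ N ^ 2 := by
          push_cast; rw [sq]; gcongr
        have h3 := log_sep (Nat.mul_pos haj hbk) (Nat.mul_pos hak hbj) h1 h2 heq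
        have h4 : Real.log (((a j * b k : ℕ) : ℝ) / ((a k * b j : ℕ) : ℝ)) = l j - l k := by
          rw [hl]
          simp only
          push_cast
          rw [← Real.log_div (by positivity) (by positivity)]
          congr 1
          field_simp
        rwa [h4] at h3
      have hs2 : (1 / N ^ 2) ^ 2 ≤ (l j - l k) ^ 2 := by
        rw [← sq_abs (l j - l k)]
        gcongr
      have h5 : (T / (4 * N ^ 2)) ^ 2 ≤ T ^ 2 * (l j - l k) ^ 2 / (4 * Real.pi) := by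
        have hpi := Real.pi_pos
        have hpi4 : Real.pi ≤ 4 := Real.pi_le_four
        calc (T / (4 * N ^ 2)) ^ 2 = T ^ 2 * (1 / N ^ 2) ^ 2 / 16 := by ring
          _ ≤ T ^ 2 * (1 / N ^ 2) ^ 2 / (4 * Real.pi) := by
              gcongr
              linarith
          _ ≤ T ^ 2 * (l j - l k) ^ 2 / (4 * Real.pi) := by gcongr
      have h6 : Real.exp (-(T ^ 2 * (l j - l k) ^ 2 / (4 * Real.pi))) ≤ Real.exp (-(T / (4 * N ^ 2)) ^ 2) := by
        apply Real.exp_le_exp.mpr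
        have : -(T / (4 * N ^ 2)) ^ 2 = -((T / (4 * N ^ 2)) ^ 2) := rfl
        linarith
      calc ‖x j‖ * ‖x k‖ * (T * Real.exp (-(T ^ 2 * (l j - l k) ^ 2 / (4 * Real.pi))))
          ≤ ‖x j‖ * ‖x k‖ * (T * Real.exp (-(T / (4 * N ^ 2)) ^ 2)) := by gcongr
        _ = _ := by ring
  refine st1.trans ?_
  rw [mul_assoc]
  refine mul_le_mul_of_nonneg_left ?_ (Real.exp_pos _).le
  refine st2.trans ?_
  refine (Finset.sum_le_sum fun j hj => Finset.sum_le_sum fun k hk => st3 j hj k hk).trans (le_of_eq ?_)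
  simp_rw [← Finset.mul_sum, Finset.sum_add_distrib]
  congr 2
  have e5 : (∑ j ∈ s, ‖x j‖) ^ 2 = ∑ j ∈ s, ∑ k ∈ s, ‖x j‖ * ‖x k‖ := by rw [sq, Finset.sum_mul_sum]
  rw [e5]
  simp_rw [← Finset.sum_mul]

end Pool.Agent.W701.BH
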